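import Pool.Agent.PFC.StmtsB1

/-!
# Squad PFC, row QHK: `QQ T` is Higman projective over the fraction field
-/

namespace Pool.Agent.PFC.B1.H40

section Gen
variable {R Γ A k T : Type} [CommRing R] [Ring Γ] [Algebra R Γ] [Ring A] [Algebra R A]
  [CommRing k] [Algebra R k] [AddCommGroup T] [Module k T]

/-- the operator `f ↦ z (f ∘ b)` on `QQ` -/
def opA (j : Γ →ₐ[R] A) (τ : Rp R A k T) (z : A) (b : A →ₗ[R] A)
    (hb : ∀ γ x, b (j γ * x) = j γ * b x) : QQ j τ →ₗ[k] QQ j τ where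
  toFun g := ⟨fun x => g.1 (b (x * z)) - τ.ρ x (g.1 (b z)),
    fun x y => by
      show g.1 (b ((x + y) * z)) - τ.ρ (x + y) (g.1 (b z)) =
        (g.1 (b (x * z)) - τ.ρ x (g.1 (b z))) + (g.1 (b (y * z)) - τ.ρ y (g.1 (b z)))
      rw [add_mul, map_add, g.2.1, map_add, LinearMap.add_apply]; abel,
    fun γ x => by
      show g.1 (b (j γ * x * z)) - τ.ρ (j γ * x) (g.1 (b z)) =
        τ.ρ (j γ) (g.1 (b (x * z)) - τ.ρ x (g.1 (b z)))
      rw [mul_assoc, hb, g.2.2.1, τ.ρ.map_mul, map_sub, Module.End.mul_apply],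
    by
      show g.1 (b (1 * z)) - τ.ρ 1 (g.1 (b z)) = 0
      rw [one_mul, map_one]; exact sub_self _⟩
  map_add' f g := by
    apply Subtype.ext; funext x
    show (f.1 (b (x * z)) + g.1 (b (x * z))) - τ.ρ x (f.1 (b z) + g.1 (b z)) =
      (f.1 (b (x * z)) - τ.ρ x (f.1 (b z))) + (g.1 (b (x * z)) - τ.ρ x (g.1 (b z)))
    rw [map_add]; abel
  map_smul' c g := by
    apply Subtype.ext; funext x
    show c • g.1 (b (x * z)) - τ.ρ x (c • g.1 (b z)) =
      c • (g.1 (b (x * z)) - τ.ρ x (g.1 (b z)))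
    rw [map_smul, smul_sub]

lemma opA_apply (j : Γ →ₐ[R] A) (τ : Rp R A k T) (z : A) (b : A →ₗ[R] A)
    (hb : ∀ γ x, b (j γ * x) = j γ * b x) (g : QQ j τ) (x : A) :
    (opA j τ z b hb g).1 x = g.1 (b (x * z)) - τ.ρ x (g.1 (b z)) := rfl

lemma qq_apply (j : Γ →ₐ[R] A) (τ : Rp R A k T) (a : A) (g : QQ j τ) (x : A) :
    ((qqRp j τ).ρ a g).1 x = g.1 (x * a) - τ.ρ x (g.1 a) := rfl

/-- elements of `QQ` are `R`-linear -/
lemma qq_smul (j : Γ →ₐ[R] A) (τ : Rp R A k T) (g : QQ j τ) (r : R) (x : A) :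
    g.1 (r • x) = algebraMap R k r • g.1 x := by
  have h := g.2.2.1 (algebraMap R Γ r) x
  rw [j.commutes] at h
  rw [Algebra.smul_def, h]
  exact τ.sc r _

lemma qq_zero (j : Γ →ₐ[R] A) (τ : Rp R A k T) (g : QQ j τ) : g.1 0 = 0 := by
  have h := g.2.1 0 0
  rw [add_zero] at h
  exact left_eq_add.mp h

/-- an element of `QQ` as a linear map for the module structure of `T` over `R` -/
lemma qq_span (j : Γ →ₐ[R] A) (τ : Rp R A k T) (g : QQ j τ) (S : Set A)
    (hS : Submodule.span R S = ⊤) (P : AddSubgroup T)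
    (hP : ∀ (r : R), ∀ y ∈ P, algebraMap R k r • y ∈ P) (h : ∀ x ∈ S, g.1 x ∈ P) (x : A) :
    g.1 x ∈ P := by
  have hx : x ∈ Submodule.span R S := by rw [hS]; exact Submodule.mem_top
  induction hx using Submodule.span_induction with
  | mem x hx => exact h x hx
  | zero => rw [qq_zero]; exact P.zero_mem
  | add x y _ _ hx hy => rw [g.2.1]; exact P.add_mem hx hy
  | smul r x _ hx => rw [qq_smul]; exact hP r _ hx

end Gen

section Cmp
variable {R Γ A k T L T' J : Type} [CommRing R] [Ring Γ] [Algebra R Γ] [Ring A] [Algebra R A]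
  [CommRing L] [Algebra R L] [AddCommGroup T] [Module L T] [AddCommGroup T'] [Module R T']
  [Fintype J]

/-- the trace operators on `QQ T'` and `QQ T` are compatible with the inclusion -/
lemma tr_cmp (j : Γ →ₐ[R] A) (c : FS R A J) (τ : Rp R A L T) (τ' : Rp R A R T') (i : T' →+ T)
    (hi : ∀ a x, i (τ'.ρ a x) = τ.ρ a (i x)) (z : A) (b : A →ₗ[R] A)
    (hb : ∀ γ x, b (j γ * x) = j γ * b x) (g' : QQ j τ') (g : QQ j τ)
    (h : ∀ x, i (g'.1 x) = g.1 x) (x : A) :
    i ((c.tr (qqRp j τ') (qqRp j τ') (opA j τ' z b hb) g').1 x) =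
      (c.tr (qqRp j τ) (qqRp j τ) (opA j τ z b hb) g).1 x := by
  have hq : ∀ (a : A) (f' : QQ j τ') (f : QQ j τ), (∀ x, i (f'.1 x) = f.1 x) →
      ∀ x, i (((qqRp j τ').ρ a f').1 x) = ((qqRp j τ).ρ a f).1 x := by
    intro a f' f hf x
    rw [qq_apply, qq_apply, map_sub, hi, hf, hf]
  have ho : ∀ (f' : QQ j τ') (f : QQ j τ), (∀ x, i (f'.1 x) = f.1 x) →
      ∀ x, i ((opA j τ' z b hb f').1 x) = (opA j τ z b hb f).1 x := by
    intro f' f hf x
    rw [opA_apply, opA_apply, map_sub, hi, hf, hf]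
  have e1 : (c.tr (qqRp j τ') (qqRp j τ') (opA j τ' z b hb) g').1 x =
      ∑ l, ((qqRp j τ').ρ (c.b l) (opA j τ' z b hb ((qqRp j τ').ρ (c.b' l) g'))).1 x := by
    unfold FS.tr
    rw [LinearMap.sum_apply, AddSubmonoidClass.coe_finsetSum, Finset.sum_apply]
    rfl
  have e2 : (c.tr (qqRp j τ) (qqRp j τ) (opA j τ z b hb) g).1 x =
      ∑ l, ((qqRp j τ).ρ (c.b l) (opA j τ z b hb ((qqRp j τ).ρ (c.b' l) g))).1 x := by
    unfold FS.tr
    rw [LinearMap.sum_apply, AddSubmonoidClass.coe_finsetSum, Finset.sum_apply]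
    rfl
  rw [e1, e2, map_sum]
  apply Finset.sum_congr rfl
  intro l _
  exact hq _ _ _ (ho _ _ (hq _ _ _ h)) x

end Cmp

section Inj
variable {F Γ A T J : Type} [Field F] [Ring Γ] [Algebra (PowerSeries F) Γ] [Ring A]
  [Algebra (PowerSeries F) A] [AddCommGroup T] [Module (PowerSeries F) T]
  [Module.Finite (PowerSeries F) T] [Module.Free (PowerSeries F) T] [Fintype J]

omit [Module.Finite (PowerSeries F) T] in
lemma X_smul_inj {x y : T} (h : (PowerSeries.X : PowerSeries F) • x =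
    (PowerSeries.X : PowerSeries F) • y) : x = y := by
  have h1 : (PowerSeries.X : PowerSeries F) • (x - y) = 0 := by rw [smul_sub, h, sub_self]
  rcases smul_eq_zero.mp h1 with h2 | h2
  · exact absurd h2 PowerSeries.X_ne_zero
  · exact sub_eq_zero.mp h2

omit [Module.Finite (PowerSeries F) T] in
lemma eq_zero_of_div (x : T) (h : ∀ n : ℕ, ∃ y : T, x = (PowerSeries.X : PowerSeries F) ^ n • y) :
    x = 0 := by
  have bas := Module.Free.chooseBasis (PowerSeries F) T
  apply bas.repr.injective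
  rw [map_zero]
  ext i m
  obtain ⟨y, hy⟩ := h (m + 1)
  rw [hy, map_smul, Finsupp.smul_apply, smul_eq_mul, Finsupp.zero_apply, map_zero]
  exact (PowerSeries.X_pow_dvd_iff.mp (Dvd.intro _ rfl)) m (Nat.lt_succ_self m)

omit [Module.Finite (PowerSeries F) T] in
lemma inj_R (j : Γ →ₐ[PowerSeries F] A) (τ : Rp (PowerSeries F) A (PowerSeries F) T)
    (u : QQ j τ →ₗ[PowerSeries F] QQ j τ)
    (hu : ∀ g x, ∃ y, (u g).1 x - g.1 x =
      algebraMap (PowerSeries F) (PowerSeries F) PowerSeries.X • y) (g : QQ j τ)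
    (hg : u g = 0) : g = 0 := by
  have step : ∀ g : QQ j τ, u g = 0 → ∃ h : QQ j τ, u h = 0 ∧
      ∀ x, g.1 x = (PowerSeries.X : PowerSeries F) • h.1 x := by
    intro g hg
    have h1 : ∀ x, ∃ y, g.1 x = (PowerSeries.X : PowerSeries F) • y := by
      intro x
      obtain ⟨y, hy⟩ := hu g x
      refine ⟨-y, ?_⟩
      have h2 : (u g).1 x = 0 := by rw [hg]; rfl
      rw [h2, zero_sub, Algebra.algebraMap_self, RingHom.id_apply] at hy
      rw [smul_neg, ← hy, neg_neg]
    choose y hy using h1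
    have hadd : ∀ a b, y (a + b) = y a + y b := by
      intro a b
      apply X_smul_inj (F := F)
      rw [smul_add, ← hy, ← hy, ← hy, g.2.1]
    have hmul : ∀ γ a, y (j γ * a) = τ.ρ (j γ) (y a) := by
      intro γ a
      apply X_smul_inj (F := F)
      rw [← hy, g.2.2.1, hy a, map_smul]
    have hone : y 1 = 0 := by
      apply X_smul_inj (F := F)
      rw [← hy, g.2.2.2, smul_zero]
    set h : QQ j τ := ⟨y, hadd, hmul, hone⟩ with hh
    have hgh : g = (PowerSeries.X : PowerSeries F) • h := by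
      apply Subtype.ext; funext x
      exact hy x
    refine ⟨h, ?_, hy⟩
    rw [hgh, map_smul] at hg
    apply Subtype.ext; funext x
    apply X_smul_inj (F := F)
    have h3 := congrFun (congrArg Subtype.val hg) x
    have h4 : ((PowerSeries.X : PowerSeries F) • u h).1 x =
      (PowerSeries.X : PowerSeries F) • (u h).1 x := rfl
    rw [← h4, h3]
    show (0 : T) = (PowerSeries.X : PowerSeries F) • (0 : T)
    rw [smul_zero]
  have iter : ∀ n : ℕ, ∀ g : QQ j τ, u g = 0 → ∀ x, ∃ y : T,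
      g.1 x = (PowerSeries.X : PowerSeries F) ^ n • y := by
    intro n
    induction n with
    | zero => intro g _ x; exact ⟨g.1 x, by rw [pow_zero, one_smul]⟩
    | succ n ih =>
      intro g hg x
      obtain ⟨h, h1, h2⟩ := step g hg
      obtain ⟨y, hy⟩ := ih h h1 x
      refine ⟨y, ?_⟩
      rw [h2, hy, smul_smul, pow_succ']
  apply Subtype.ext; funext x
  exact eq_zero_of_div (F := F) (g.1 x) fun n => iter n g hg x

end Inj

theorem qhk (hzid : ZidStmt) (hlat : LatStmt) (htrh : TrhStmt) : QhkStmt := by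
  intro F Γ Γ0 A A' I I0 J' K L T _ _ _ _ _ _ _ _ _ _ _ _ _ _ _ c c0 f sp0 se D _ _ _ _ _ _ τ
  obtain ⟨z, b, hb, _, hz⟩ := hzid F Γ Γ0 A A' I I0 J' K c c0 f sp0 se D
  obtain ⟨T', _, _, _, _, τ', i, hinj, hsc, hi, hdiv⟩ := hlat F A' L T τ
  set j := D.sp.j with hj
  set u := D.d.tr (qqRp j τ) (qqRp j τ) (opA j τ z b hb) with hu
  have hXL : algebraMap (PowerSeries F) L PowerSeries.X ≠ 0 := by
    intro h0
    have h1 := (IsFractionRing.injective (PowerSeries F) L)
      (h0.trans (map_zero (algebraMap (PowerSeries F) L)).symm)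
    exact PowerSeries.X_ne_zero h1
  -- injectivity of `u`
  have hinjR : ∀ g' : QQ j τ', D.d.tr (qqRp j τ') (qqRp j τ') (opA j τ' z b hb) g' = 0 → g' = 0 :=
    fun g' hg' => inj_R j τ' _ (fun g x => hz (PowerSeries F) T' τ' (opA j τ' z b hb)
      (fun g x => rfl) g x) g' hg'
  obtain ⟨S, hS⟩ := (Module.Finite.fg_top : (⊤ : Submodule (PowerSeries F) A').FG)
  have hker : ∀ g : QQ j τ, u g = 0 → g = 0 := by
    intro g hg
    -- a power of `X` moves the values of `g` into the lattice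
    have h1 : ∀ x : A', ∃ n : ℕ, ∃ y : T', algebraMap (PowerSeries F) L PowerSeries.X ^ n • g.1 x =
        i y := fun x => hdiv (g.1 x)
    choose N Y hY using h1
    set n := S.sup N with hn
    set P : AddSubgroup T :=
      (i.range).comap ((algebraMap (PowerSeries F) L PowerSeries.X ^ n •
        (LinearMap.id : T →ₗ[L] T)) : T →ₗ[L] T).toAddMonoidHom with hP
    have hPmem : ∀ y : T, y ∈ P ↔ ∃ y', i y' = algebraMap (PowerSeries F) L PowerSeries.X ^ n • y := by
      intro y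
      rfl
    have hPs : ∀ (r : PowerSeries F), ∀ y ∈ P, algebraMap (PowerSeries F) L r • y ∈ P := by
      intro r y hy
      rw [hPmem] at hy ⊢
      obtain ⟨y', hy'⟩ := hy
      refine ⟨r • y', ?_⟩
      rw [hsc, hy', smul_comm]
    have hval : ∀ x, g.1 x ∈ P := by
      intro x
      refine qq_span j τ g (S : Set A') hS P hPs ?_ x
      intro x hx
      rw [hPmem]
      have hle : N x ≤ n := Finset.le_sup hx
      refine ⟨(PowerSeries.X : PowerSeries F) ^ (n - N x) • Y x, ?_⟩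
      rw [hsc, ← hY, smul_smul, map_pow, ← pow_add, Nat.sub_add_cancel hle]
    have h2 : ∀ x, ∃ y', i y' = algebraMap (PowerSeries F) L PowerSeries.X ^ n • g.1 x :=
      fun x => (hPmem _).mp (hval x)
    choose w hw using h2
    have wadd : ∀ x y, w (x + y) = w x + w y := by
      intro x y
      apply hinj
      rw [map_add, hw, hw, hw, g.2.1, smul_add]
    have wmul : ∀ γ x, w (j γ * x) = τ'.ρ (j γ) (w x) := by
      intro γ x
      apply hinj
      rw [hi, hw, hw, g.2.2.1, map_smul]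
    have wone : w 1 = 0 := by
      apply hinj
      rw [hw, g.2.2.2, smul_zero, map_zero]
    set g' : QQ j τ' := ⟨w, wadd, wmul, wone⟩ with hg'
    have h3 : D.d.tr (qqRp j τ') (qqRp j τ') (opA j τ' z b hb) g' = 0 := by
      apply Subtype.ext; funext x
      apply hinj
      have h4 := tr_cmp j D.d τ τ' i hi z b hb g'
        (algebraMap (PowerSeries F) L PowerSeries.X ^ n • g) (fun x => hw x) x
      rw [h4, map_smul, ← hu, hg, smul_zero]
      show (0 : T) = i (0 : T')
      rw [map_zero]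
    have h5 := hinjR g' h3
    apply Subtype.ext; funext x
    have h6 : w x = 0 := congrFun (congrArg Subtype.val h5) x
    have h7 := hw x
    rw [h6, map_zero] at h7
    have h8 := (smul_eq_zero.mp h7.symm).resolve_left (pow_ne_zero n hXL)
    exact h8
  -- `QQ` is finite dimensional
  have hfin : Module.Finite L (QQ j τ) := by
    let ev : QQ j τ →ₗ[L] (S → T) :=
      { toFun := fun g s => g.1 s.1
        map_add' := fun _ _ => rfl
        map_smul' := fun _ _ => rfl }
    apply Module.Finite.of_injective ev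
    rw [← LinearMap.ker_eq_bot, LinearMap.ker_eq_bot']
    intro g hg
    apply Subtype.ext; funext x
    have h1 := qq_span j τ g (S : Set A') hS ⊥ (by
      intro r y hy
      rw [AddSubgroup.mem_bot] at hy ⊢
      rw [hy, smul_zero]) (by
      intro x hx
      rw [AddSubgroup.mem_bot]
      exact congrFun hg ⟨x, hx⟩) x
    rw [AddSubgroup.mem_bot] at h1
    exact h1
  have huinj : Function.Injective u := by
    rw [← LinearMap.ker_eq_bot, LinearMap.ker_eq_bot']
    exact hker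
  have husurj : Function.Surjective u := LinearMap.injective_iff_surjective.mp huinj
  let e : QQ j τ ≃ₗ[L] QQ j τ := LinearEquiv.ofBijective u ⟨huinj, husurj⟩
  have he : ∀ x, e x = u x := fun x => rfl
  have huhom : IsHom (qqRp j τ) (qqRp j τ) u := htrh.1 _ _ _ _ _ _ D.d _ _ _
  have hehom : IsHom (qqRp j τ) (qqRp j τ) (e.symm : QQ j τ →ₗ[L] QQ j τ) := by
    intro a x
    apply e.injective
    rw [he, he]
    have h1 : u (((e.symm : QQ j τ →ₗ[L] QQ j τ)) ((qqRp j τ).ρ a x)) = (qqRp j τ).ρ a x :=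
      e.apply_symm_apply _
    have h2 : u ((e.symm : QQ j τ →ₗ[L] QQ j τ) x) = x := e.apply_symm_apply _
    rw [h1, huhom, h2]
  refine ⟨opA j τ z b hb ∘ₗ (e.symm : QQ j τ →ₗ[L] QQ j τ), ?_⟩
  have h1 := htrh.2 _ _ _ _ _ _ _ _ D.d (qqRp j τ) (qqRp j τ) (qqRp j τ) (qqRp j τ)
    (opA j τ z b hb) (e.symm : QQ j τ →ₗ[L] QQ j τ) LinearMap.id hehom (fun _ _ => rfl)
  rw [LinearMap.id_comp, LinearMap.id_comp] at h1
  rw [← h1]
  apply LinearMap.ext
  intro x
  exact e.apply_symm_apply x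

end Pool.Agent.PFC.B1.H40
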